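import Pool.Agent.H84PB.FTHA

/-!
# FTH for real exponents: assembly (helper84), after the file FTH of the library
-/

set_option autoImplicit false

open MeasureTheory ENNReal Filter Topology Complex
open scoped ComplexConjugate ContDiff

namespace Pool.Agent.H84PB.FTH

open Pool.Agent.N892.BW Pool.Agent.H78.PB Pool.Agent.H84PB
open Pool.Agent.N892.BW.KTH (bd_mono bd_zero bd_add bd_Tn Fi_zero ev)

/-- one step of the improvement -/
theorem step (hBAS : S_BAS) (hENU : R_ENU) (hSUQ : R_SUQ) (hCMP : R_CMP) (hSTR : R_STR)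
    (hINR : R_INR) (hSPT : R_SPT) (hLPF : R_LPF) (hCRS : R_CRS) (m G e : ℝ) (hm : Rg m)
    (hG : 0 < G) (hPit : Pit m G) (he : 0 < e) (he1 : e ≤ 1 / 10) :
    ∃ n₀ : ℕ, ∀ n : ℕ, n₀ ≤ n → 0 < Ar m G n ∧ ∀ lam c : ℝ, Ar m G n ≤ c →
      (∀ h, Bd 1 lam h →
        Nr m (Fi (Tn n h)) ≤ ENNReal.ofReal (c ^ (2 * m)) * Nr m (Fi h)) →
      ∀ h, Bd 1 lam h →
        Nr m (Fi (Tn n h)) ≤
          ENNReal.ofReal (((1 + 8 * e) * Ar m G n + 3 * e * c) ^ (2 * m)) * Nr m (Fi h) := by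
  have hmr : 11 / 10 ≤ m := hm.1
  have hm1 : 1 ≤ m := by linarith
  have hm0 : 0 < m := by linarith
  obtain ⟨τ, n₁, hτ, hτ1, hsp⟩ := hSPT m e hm he
  obtain ⟨C1, hC1, hen⟩ := hENU m e hm he
  obtain ⟨χ', hDen, hsuq'⟩ := hSUQ
  obtain ⟨C5, hC5, hsu⟩ := hsuq' m hm
  obtain ⟨χ₀, hBump, hstr'⟩ := hSTR
  obtain ⟨n₂, hst⟩ := hstr' m G e hm hG hPit he
  obtain ⟨C4, hC4, hcm⟩ := hCMP χ₀ χ' hBump hDen
  obtain ⟨δ, C2, hδ, hC2, hin⟩ := hINR m τ hm hτ (by linarith)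
  obtain ⟨CL, hCL, hlpf⟩ := hLPF m hm
  obtain ⟨CX, hCX, hcrs⟩ := hCRS m hm
  obtain ⟨D, hDd⟩ : ∃ D, D = 1 + CL := ⟨_, rfl⟩
  have hD1 : 1 ≤ D := by rw [hDd]; linarith
  have hD0 : 0 < D := by linarith
  have hCD : CL ≤ D ^ (2 * m) := by
    have : D ≤ D ^ (2 * m) := self_le_rpow hD1 (by linarith)
    linarith
  obtain ⟨r, hrd⟩ : ∃ r, r = e / (4 * (D + 1)) := ⟨_, rfl⟩
  have hr0 : 0 < r := by rw [hrd]; positivity
  have hrD : 2 * r * D ≤ e / 2 := by
    have h1 : r * (4 * (D + 1)) = e := by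
      rw [hrd]
      exact div_mul_cancel₀ _ (by positivity)
    nlinarith
  have hθ : 0 < 1 - 1 / m := by
    rw [sub_pos, div_lt_one (by linarith)]
    linarith
  obtain ⟨k1, hk1⟩ := ev C4 (368 / 375 - 1 / 500 - τ / 2) (r ^ 2) (by linarith) (by positivity)
  obtain ⟨k2, hk2⟩ := ev (D / G) (1 - 1 / m) (e / 2) hθ (by positivity)
  obtain ⟨k3, hk3⟩ := ev C5 (τ / 2) e (by linarith) he
  obtain ⟨k4, hk4⟩ := ev (C1 * C2 * D ^ 2) δ (e ^ (2 * m) * G ^ 2) hδ (by positivity)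
  obtain ⟨k5, hk5⟩ := ev (2 * m * CX * D ^ 2) τ (e / 2) hτ (by positivity)
  obtain ⟨k6, hk6⟩ := ev 1 τ (1 / 4) hτ (by norm_num)
  obtain ⟨k7, hk7⟩ := ev 1 (τ / 2) (1 / 4) (by linarith) (by norm_num)
  refine ⟨n₁ + n₂ + k1 + k2 + k3 + k4 + k5 + k6 + k7 + 1, ?_⟩
  intro n hn
  have hnn : 1 ≤ n := by omega
  have hn1 : (1 : ℝ) ≤ n := by exact_mod_cast hnn
  have hn0 : (0 : ℝ) < n := by linarith
  have hk1 := hk1 n (by omega)
  have hk2 := hk2 n (by omega)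
  have hk3 := hk3 n (by omega)
  have hk4 := hk4 n (by omega)
  have hk5 := hk5 n (by omega)
  have hk6 := hk6 n (by omega)
  have hk7 := hk7 n (by omega)
  obtain ⟨A, hA⟩ : ∃ A, A = Ar m G n := ⟨_, rfl⟩
  have hAd : A = (n : ℝ) ^ (1 - 1 / m) * G := hA
  have hA0 : 0 < A := by rw [hAd]; positivity
  rw [← hA]
  refine ⟨hA0, ?_⟩
  intro lam c hAc hyp h hB
  have hc : 0 < c := hA0.trans_le hAc
  obtain ⟨M, H, a, b, g, hdec, hg, hgN, hSep, hk⟩ := hsp n lam h (by omega) hB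
  -- powers of `n`
  obtain ⟨T, hT⟩ : ∃ T, T = (n : ℝ) ^ τ := ⟨_, rfl⟩
  obtain ⟨T2, hT2⟩ : ∃ T2, T2 = (n : ℝ) ^ (τ / 2) := ⟨_, rfl⟩
  have hT20 : 0 < T2 := by rw [hT2]; positivity
  have hTT : T = T2 * T2 := by
    rw [hT, hT2, ← Real.rpow_add hn0]
    congr 1
    ring
  have hT0 : 0 < T := by rw [hTT]; positivity
  have hT1 : 1 ≤ T := by rw [hT]; exact Real.one_le_rpow hn1 hτ.le
  have hTi : (n : ℝ) ^ (-τ) = T⁻¹ := by rw [hT, Real.rpow_neg hn0.le]
  have hT2i : (n : ℝ) ^ (-(τ / 2)) = T2⁻¹ := by rw [hT2, Real.rpow_neg hn0.le]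
  rw [hTi] at hk6 hk5
  rw [hT2i] at hk3 hk7
  rw [one_mul] at hk6 hk7
  rw [← hT] at hk
  have hTi1 : T⁻¹ ≤ 1 := inv_le_one_of_one_le₀ hT1
  have hTi0 : 0 ≤ T⁻¹ := by positivity
  have hB0 : ∀ k, k ≤ M → Bd 1 lam (sm H k) := by
    intro k
    induction k with
    | zero => intro _; rw [sm_zero]; exact bd_zero _ _
    | succ k ih =>
      intro hkM
      rw [sm_succ]
      exact bd_add (ih (by omega)) (hk k (by omega)).1
  have z1 : ∀ {g : ℂ → ℂ}, Bd 1 lam g → Bd 0 lam g :=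
    fun hg => bd_mono hg zero_le_one le_rfl
  have tz : ∀ {g : ℂ → ℂ}, Bd 1 lam g → Bd 0 lam (Tn n g) :=
    fun hg => z1 (bd_Tn n one_pos hg)
  -- the real sequences
  obtain ⟨x, hx⟩ : ∃ x, x = rt m (Nr m (Fi h)) := ⟨_, rfl⟩
  obtain ⟨P, hP⟩ : ∃ P, P = rt m (Nr m (Fi (sm H M))) := ⟨_, rfl⟩
  obtain ⟨U, hU⟩ : ∃ U, U = rt m (Nr m (Fi (Tn n (sm H M)))) := ⟨_, rfl⟩
  obtain ⟨S, hS⟩ : ∃ S, S = rt m (Sr m M H) := ⟨_, rfl⟩
  obtain ⟨f, hf⟩ : ∃ f : ℕ → ℝ, ∀ k, f k = rt m (Nr m (Fi (H k))) := ⟨_, fun _ => rfl⟩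
  obtain ⟨v, hv⟩ : ∃ v : ℕ → ℝ, ∀ k, v k = rt m (Nr m (Fi (Tn n (H k)))) := ⟨_, fun _ => rfl⟩
  obtain ⟨ρ, hρ⟩ : ∃ ρ : ℕ → ℝ, ∀ k, ρ k = if k < M then T2 / a k else 1 := ⟨_, fun _ => rfl⟩
  have hρM : ∀ k, k < M → ρ k = T2 / a k := fun k hkM => by rw [hρ, if_pos hkM]
  have hρ0 : ∀ k, 0 < ρ k := by
    intro k
    rw [hρ]
    split_ifs with hkM
    · exact div_pos hT20 (hSep k hkM).1
    · exact one_pos
  obtain ⟨l, hl⟩ : ∃ l : ℕ → ℝ, ∀ k, l k = (n : ℝ) ^ (368 / 375 : ℝ) / b k := ⟨_, fun _ => rfl⟩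
  obtain ⟨z, hz⟩ : ∃ z : ℕ → ℝ, ∀ k, z k = rt m (Lr m χ' (ρ k) (Fi (H k))) := ⟨_, fun _ => rfl⟩
  obtain ⟨y, hy⟩ : ∃ y : ℕ → ℝ, ∀ k, y k = rt m (Lr m χ₀ (l k) (Fi (H k))) := ⟨_, fun _ => rfl⟩
  have hx0 : 0 ≤ x := by rw [hx]; exact rt_nonneg _ _
  have hP0 : 0 ≤ P := by rw [hP]; exact rt_nonneg _ _
  have hU0 : 0 ≤ U := by rw [hU]; exact rt_nonneg _ _
  have hS0 : 0 ≤ S := by rw [hS]; exact rt_nonneg _ _
  have hf0 : ∀ k, 0 ≤ f k := fun k => by rw [hf]; exact rt_nonneg _ _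
  have hv0 : ∀ k, 0 ≤ v k := fun k => by rw [hv]; exact rt_nonneg _ _
  have hz0 : ∀ k, 0 ≤ z k := fun k => by rw [hz]; exact rt_nonneg _ _
  have hy0 : ∀ k, 0 ≤ y k := fun k => by rw [hy]; exact rt_nonneg _ _
  -- finiteness
  have eX : Nr m (Fi h) = ENNReal.ofReal (x ^ (2 * m)) := by
    rw [hx]
    exact rt_pow hm1 (fin hBAS (z1 hB) hm1)
  have eF : ∀ k, k < M → Nr m (Fi (H k)) = ENNReal.ofReal (f k ^ (2 * m)) := by
    intro k hkM
    rw [hf]
    exact rt_pow hm1 (fin hBAS (z1 (hk k hkM).1) hm1)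
  have eV : ∀ k, k < M → Nr m (Fi (Tn n (H k))) = ENNReal.ofReal (v k ^ (2 * m)) := by
    intro k hkM
    rw [hv]
    exact rt_pow hm1 (fin hBAS (tz (hk k hkM).1) hm1)
  have eP : Nr m (Fi (sm H M)) = ENNReal.ofReal (P ^ (2 * m)) := by
    rw [hP]
    exact rt_pow hm1 (fin hBAS (z1 (hB0 M le_rfl)) hm1)
  have eU : Nr m (Fi (Tn n (sm H M))) = ENNReal.ofReal (U ^ (2 * m)) := by
    rw [hU]
    exact rt_pow hm1 (fin hBAS (tz (hB0 M le_rfl)) hm1)
  -- LPF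
  have lpf0 : Sr m M H ≤ ENNReal.ofReal (D ^ (2 * m)) * Nr m (Fi (sm H M)) :=
    (hlpf M a b H hSep).trans (mul_le_mul_left (ENNReal.ofReal_le_ofReal hCD) _)
  have finS : Sr m M H ≠ ⊤ := by
    refine ne_top_of_le_ne_top ?_ lpf0
    rw [eP]
    exact ENNReal.mul_ne_top ENNReal.ofReal_ne_top ENNReal.ofReal_ne_top
  have eS : Sr m M H = ENNReal.ofReal (S ^ (2 * m)) := by
    rw [hS]
    exact rt_pow hm1 finS
  have a_SD : S ≤ D * P := by
    rw [hS, hP]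
    exact rt_le hm1 hD0.le (fin hBAS (z1 (hB0 M le_rfl)) hm1) lpf0
  -- the sum of the norms
  have a_f : ∑ k ∈ Finset.range M, f k ^ (2 * m) ≤ S ^ (2 * m) := by
    have h1 : ∑ k ∈ Finset.range M, Nr m (Fi (H k)) ≤ Sr m M H := by
      unfold Nr Sr
      rw [← lintegral_finsetSum _ (fun k hkM =>
        ((meas hBAS (z1 (hk k (Finset.mem_range.1 hkM)).1)).enorm.pow_const _))]
      refine lintegral_mono fun x => ?_
      simp only
      have e1 : ∀ k, ‖Fi (H k) x‖ₑ ^ (2 * m) = (‖Fi (H k) x‖ₑ ^ 2) ^ m := by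
        intro k
        rw [ENNReal.rpow_mul, ENNReal.rpow_ofNat]
      simp only [e1]
      exact sum_pow_le hm1 _ _
    rw [Finset.sum_congr rfl (fun k hkM => eF k (Finset.mem_range.1 hkM)), eS,
      ← ENNReal.ofReal_sum_of_nonneg (fun k _ => Real.rpow_nonneg (hf0 k) _),
      ENNReal.ofReal_le_ofReal_iff (Real.rpow_nonneg hS0 _)] at h1
    exact h1
  -- SUQ
  have suq0 : (∑ k ∈ Finset.range M, Lr m χ' (ρ k) (Fi (H k))) ≤
      ENNReal.ofReal (1 + C5 * T2⁻¹) * Nr m (Fi (sm H M)) := by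
    by_cases hM0 : M = 0
    · subst hM0
      rw [Finset.range_zero, Finset.sum_empty]
      exact bot_le
    · have hM1 : 0 < M := by omega
      refine hsu M a b ρ H T2⁻¹ (by positivity) (by linarith) hSep hρ0 ?_ ?_
      · have p1 := (hSep 0 hM1).1
        rw [hρM 0 hM1, one_div_div, div_eq_mul_inv]
        have : a 0 * T2⁻¹ ≤ a 0 * (1 / 4) := mul_le_mul_of_nonneg_left hk7 p1.le
        linarith
      · intro k hkM
        have p1 := (hSep (k + 1) hkM).1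
        have p2 := (hk k (by omega)).2.2
        have r1 : b k ≤ a (k + 1) * T⁻¹ := by
          rw [← div_eq_mul_inv, le_div_iff₀ hT0]
          exact p2
        have r2 : a (k + 1) * T⁻¹ ≤ a (k + 1) * (1 / 4) := mul_le_mul_of_nonneg_left hk6 p1.le
        have r3 : a (k + 1) * T2⁻¹ ≤ a (k + 1) * (1 / 4) := mul_le_mul_of_nonneg_left hk7 p1.le
        rw [hρM (k + 1) hkM]
        constructor
        · have r4 : b k / a (k + 1) ≤ T⁻¹ := by
            rw [div_le_iff₀ p1, mul_comm]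
            exact r1
          have r5 : T2⁻¹ = T2 * T⁻¹ := by
            rw [hTT]
            field_simp
          have r6 : T2 / a (k + 1) * b k = T2 * (b k / a (k + 1)) := by ring
          rw [r5, r6]
          exact mul_le_mul_of_nonneg_left r4 hT20.le
        · rw [one_div_div, div_eq_mul_inv]
          linarith
  have finZ : ∀ k, k < M → Lr m χ' (ρ k) (Fi (H k)) ≠ ⊤ := by
    intro k hkM
    refine ne_top_of_le_ne_top ?_ (le_trans
      (Finset.single_le_sum (f := fun k => Lr m χ' (ρ k) (Fi (H k)))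
        (fun _ _ => bot_le) (Finset.mem_range.2 hkM)) suq0)
    rw [eP]
    exact ENNReal.mul_ne_top ENNReal.ofReal_ne_top ENNReal.ofReal_ne_top
  have eZ : ∀ k, k < M → Lr m χ' (ρ k) (Fi (H k)) = ENNReal.ofReal (z k ^ (2 * m)) := by
    intro k hkM
    rw [hz]
    exact rt_pow hm1 (finZ k hkM)
  have a_z : ∑ k ∈ Finset.range M, z k ^ (2 * m) ≤ (1 + C5 * T2⁻¹) * P ^ (2 * m) := by
    have h1 := suq0
    rw [Finset.sum_congr rfl (fun k hkM => eZ k (Finset.mem_range.1 hkM)), eP,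
      ← ENNReal.ofReal_sum_of_nonneg (fun k _ => Real.rpow_nonneg (hz0 k) _),
      ← ENNReal.ofReal_mul (by positivity),
      ENNReal.ofReal_le_ofReal_iff (by positivity)] at h1
    exact h1
  -- CMP
  have cmp0 : ∀ k, k < M → (Lr m χ₀ (l k) (Fi (H k))) ^ (1 / m) ≤
      ENNReal.ofReal (z k ^ 2 + C4 * (ρ k / l k) * f k ^ 2) := by
    intro k hkM
    obtain ⟨p, -⟩ := hk k hkM
    obtain ⟨p1, p2, p0, -⟩ := hSep k hkM
    have hbk : 0 < b k := p1.trans_le p2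
    have hρk := hρ0 k
    have hl0 : 0 < l k := by rw [hl]; positivity
    have h1 := hcm m (ρ k) (l k) (Fi (H k)) hm hρk hl0 (meas hBAS (z1 p))
    rw [eZ k hkM, eF k hkM, pw2 hm1 (hz0 k), pw2 hm1 (hf0 k),
      ← ENNReal.ofReal_mul (by positivity),
      ← ENNReal.ofReal_add (by positivity) (by positivity)] at h1
    exact h1
  have finY : ∀ k, k < M → Lr m χ₀ (l k) (Fi (H k)) ≠ ⊤ := by
    intro k hkM
    have h1 := ne_top_of_le_ne_top ENNReal.ofReal_ne_top (cmp0 k hkM)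
    intro h2
    rw [h2, ENNReal.top_rpow_of_pos (by positivity)] at h1
    exact h1 rfl
  have eY : ∀ k, k < M → Lr m χ₀ (l k) (Fi (H k)) = ENNReal.ofReal (y k ^ (2 * m)) := by
    intro k hkM
    rw [hy]
    exact rt_pow hm1 (finY k hkM)
  have a_y : ∀ k, k < M → y k ≤ z k + r * f k := by
    intro k hkM
    obtain ⟨p, p3, -⟩ := hk k hkM
    obtain ⟨p1, p2, p0, -⟩ := hSep k hkM
    have hbk : 0 < b k := p1.trans_le p2
    have hρk := hρ0 k
    have hl0 : 0 < l k := by rw [hl]; positivity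
    have h1 := cmp0 k hkM
    rw [eY k hkM, pw2 hm1 (hy0 k), ENNReal.ofReal_le_ofReal_iff (by positivity)] at h1
    have h2 : C4 * (ρ k / l k) ≤ r ^ 2 := by
      refine le_trans ?_ hk1
      apply mul_le_mul_of_nonneg_left _ hC4
      rw [hρM k hkM, hl]
      have r1 : T2 / a k / ((n : ℝ) ^ (368 / 375 : ℝ) / b k) =
          (T2 / (n : ℝ) ^ (368 / 375 : ℝ)) * (b k / a k) := by
        field_simp
      have r2 : b k / a k ≤ (n : ℝ) ^ (1 / 500 : ℝ) := by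
        rw [div_le_iff₀ p1, mul_comm]
        exact p3
      have r3 : (n : ℝ) ^ (-(368 / 375 - 1 / 500 - τ / 2)) =
          (T2 / (n : ℝ) ^ (368 / 375 : ℝ)) * (n : ℝ) ^ (1 / 500 : ℝ) := by
        rw [hT2, ← Real.rpow_sub hn0, ← Real.rpow_add hn0]
        congr 1
        ring
      rw [r1, r3]
      exact mul_le_mul_of_nonneg_left r2 (by positivity)
    have h3 := mul_le_mul_of_nonneg_right h2 (sq_nonneg (f k))
    have h4 : 0 ≤ z k * (r * f k) := mul_nonneg (hz0 k) (mul_nonneg hr0.le (hf0 k))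
    refine le_of_pow_le_pow_left₀ (n := 2) (by norm_num)
      (add_nonneg (hz0 k) (mul_nonneg hr0.le (hf0 k))) ?_
    have h5 : (z k + r * f k) ^ 2 = z k ^ 2 + 2 * (z k * (r * f k)) + r ^ 2 * f k ^ 2 := by ring
    rw [h5]
    clear * - h1 h3 h4
    linarith
  -- STR
  have a_v : ∀ k, k < M → v k ≤ (1 + e) * A * y k + f k := by
    intro k hkM
    obtain ⟨p, p3, -⟩ := hk k hkM
    obtain ⟨p1, p2, p0, -⟩ := hSep k hkM
    have h1 := hst n (a k) (b k) (by omega) p1 p2 p3 (H k) p0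
    rw [← hl, ← hA, eV k hkM, eF k hkM, eY k hkM, pw1 hm1 (hv0 k), pw1 hm1 (hf0 k),
      pw1 hm1 (hy0 k), ← ENNReal.ofReal_mul (by positivity),
      ← ENNReal.ofReal_add (by have := hy0 k; positivity) (hf0 k),
      ENNReal.ofReal_le_ofReal_iff (by have := hy0 k; have := hf0 k; positivity)] at h1
    exact h1
  -- ENU
  have enu0 : ∀ j, j ≤ M → Nr m (Fi (Tn n (sm H j))) ≤
      ENNReal.ofReal (1 + e) * ∑ k ∈ Finset.range j, Nr m (Fi (Tn n (H k))) +
        ENNReal.ofReal C1 * ∑ k ∈ Finset.range j,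
          (∫⁻ x, ‖Fi (Tn n (H k)) x‖ₑ ^ 2 * ‖Fi (Tn n (sm H k)) x‖ₑ ^ (2 * m - 2)) +
        ENNReal.ofReal (2 * m) * ∑ k ∈ Finset.range j, ENNReal.ofReal
          |∫ x, ‖Fi (Tn n (sm H k)) x‖ ^ (2 * m - 2) *
            (conj (Fi (Tn n (sm H k)) x) * Fi (Tn n (H k)) x).re| := by
    intro j
    induction j with
    | zero =>
      intro _
      rw [sm_zero, Tn_zero, Fi_zero, Nr_zero hm1]
      exact bot_le
    | succ k ih =>
      intro hkM
      have ih := ih (by omega)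
      have bd1 : Bd 0 lam (Tn n (sm H k)) := tz (hB0 k (by omega))
      have bd2 : Bd 0 lam (Tn n (H k)) := tz (hk k (by omega)).1
      have h1 := hen lam lam (Tn n (sm H k)) (Tn n (H k)) bd1 bd2
      rw [Tn_add, ← sm_succ, ENNReal.ofReal_mul (p := 2 * m) (by positivity)] at h1
      refine h1.trans ?_
      rw [Finset.sum_range_succ, Finset.sum_range_succ, Finset.sum_range_succ, mul_add, mul_add,
        mul_add]
      refine (add_le_add (add_le_add (add_le_add ih le_rfl) le_rfl) le_rfl).trans (le_of_eq ?_)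
      ring
  -- the cross terms
  have hSepT : Sep 3 M a b (fun k => Tn n (H k)) := by
    intro k hkM
    obtain ⟨p1, p2, p0, p4⟩ := hSep k hkM
    exact ⟨p1, p2, bd_Tn n p1 p0, p4⟩
  have crs0 : (∑ k ∈ Finset.range M, ENNReal.ofReal
      |∫ x, ‖Fi (Tn n (sm H k)) x‖ ^ (2 * m - 2) *
        (conj (Fi (Tn n (sm H k)) x) * Fi (Tn n (H k)) x).re|) ≤
      ENNReal.ofReal (CX * T⁻¹ * (D ^ 2 * U ^ (2 * m))) := by
    have h1 := hcrs M a b (fun k => Tn n (H k)) T⁻¹ hTi0 hTi1 hSepT (fun k hkM => by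
      have p2 := (hk k (by omega)).2.2
      rw [mul_comm, ← div_eq_mul_inv, le_div_iff₀ hT0]
      exact p2)
    simp only [sm_Tn] at h1
    have h2 := hlpf M a b (fun k => Tn n (H k)) hSepT
    rw [sm_Tn] at h2
    have h2' : Sr m M (fun k => Tn n (H k)) ≤ ENNReal.ofReal ((D * U) ^ (2 * m)) := by
      refine h2.trans ?_
      rw [eU, ← ENNReal.ofReal_mul hCL, Real.mul_rpow hD0.le hU0]
      exact ENNReal.ofReal_le_ofReal
        (mul_le_mul_of_nonneg_right hCD (Real.rpow_nonneg hU0 _))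
    have h3 : (Sr m M (fun k => Tn n (H k))) ^ (1 / m) ≤ ENNReal.ofReal ((D * U) ^ 2) := by
      refine (ENNReal.rpow_le_rpow h2' (by positivity)).trans (le_of_eq ?_)
      exact pw2 hm1 (mul_nonneg hD0.le hU0)
    refine h1.trans ?_
    rw [eU, pw3 hm1 hU0]
    calc ENNReal.ofReal (CX * T⁻¹) * ((Sr m M (fun k => Tn n (H k))) ^ (1 / m) *
          ENNReal.ofReal (U ^ (2 * m - 2)))
        ≤ ENNReal.ofReal (CX * T⁻¹) * (ENNReal.ofReal ((D * U) ^ 2) *
          ENNReal.ofReal (U ^ (2 * m - 2))) := by gcongr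
      _ = ENNReal.ofReal (CX * T⁻¹ * (D ^ 2 * U ^ (2 * m))) := by
          rw [← ENNReal.ofReal_mul (by positivity), ← ENNReal.ofReal_mul (by positivity),
            rpow_split hm1 hU0]
          congr 1
          ring
  obtain ⟨q, hq⟩ : ∃ q, q = C2 * (n : ℝ) ^ (2 * (1 - 1 / m) - δ) := ⟨_, rfl⟩
  have hq0 : 0 ≤ q := by rw [hq]; positivity
  have a_U : U ^ (2 * m) ≤ (1 + e) * ∑ k ∈ Finset.range M, v k ^ (2 * m) +
      (C1 * q) * S ^ 2 * U ^ (2 * m - 2) + (2 * m * CX * D ^ 2 * T⁻¹) * U ^ (2 * m) := by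
    have h1 := enu0 M le_rfl
    have h3 := hin n M a b H hnn hSep (fun k hkM => ⟨by
      obtain ⟨p, p3, -⟩ := hk k hkM
      obtain ⟨p1, -⟩ := hSep k hkM
      refine p3.trans (mul_le_mul_of_nonneg_left ?_ p1.le)
      calc (n : ℝ) ^ (1 / 500 : ℝ) ≤ (n : ℝ) ^ (1 : ℝ) :=
            Real.rpow_le_rpow_of_exponent_le hn1 (by norm_num)
        _ = n := Real.rpow_one _, by
      rw [← hT]
      exact (hk k hkM).2.2⟩)
    rw [eS, eU, pw2 hm1 hS0, pw3 hm1 hU0, ← hq, ← ENNReal.ofReal_mul hq0,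
      ← ENNReal.ofReal_mul (by positivity)] at h3
    have h4 := h1.trans (add_le_add (add_le_add le_rfl (mul_le_mul_right h3 _))
      (mul_le_mul_right crs0 _))
    have n1 : 0 ≤ ∑ k ∈ Finset.range M, v k ^ (2 * m) :=
      Finset.sum_nonneg fun k _ => Real.rpow_nonneg (hv0 k) _
    rw [Finset.sum_congr rfl (fun k hkM => eV k (Finset.mem_range.1 hkM)),
      ← ENNReal.ofReal_sum_of_nonneg (fun k _ => Real.rpow_nonneg (hv0 k) _), eU,
      ← ENNReal.ofReal_mul (by linarith), ← ENNReal.ofReal_mul hC1,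
      ← ENNReal.ofReal_mul (by positivity),
      ← ENNReal.ofReal_add (by positivity) (by positivity),
      ← ENNReal.ofReal_add (by positivity) (by positivity),
      ENNReal.ofReal_le_ofReal_iff (by positivity)] at h4
    linarith
  have a_Uc : U ≤ c * P := by
    rw [hU, hP]
    exact rt_le hm1 hc.le (fin hBAS (z1 (hB0 M le_rfl)) hm1) (hyp _ (hB0 M le_rfl))
  have a_g : rt m (Nr m (Fi g)) ≤ e * x := by
    rw [hx]
    exact rt_le hm1 he.le (fin hBAS (z1 hB) hm1) hgN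
  have a_PM : P ≤ (1 + e) * x := by
    have h1 : sm H M = fun ξ => h ξ + (fun ξ => -g ξ) ξ := by
      funext ξ
      rw [hdec ξ]
      ring
    have h2 := minkF hm1 hBAS (z1 hB) (bd_neg (z1 hg)) h1
    rw [Nr_neg, ← hP, ← hx] at h2
    linarith
  have hfin := numcore (m := m) (M := M) hm1 he (by linarith) hP0 hS0 hU0 hA0.le hc.le hr0.le
    (mul_nonneg hC1 hq0) hk3 hk5 (fun k _ => hv0 k) (fun k _ => hz0 k) (fun k _ => hf0 k)
    a_v a_y a_z a_f a_SD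
    (by
      have r1 : (n : ℝ) ^ (-(1 - 1 / m)) = ((n : ℝ) ^ (1 - 1 / m))⁻¹ :=
        Real.rpow_neg hn0.le _
      rw [r1, ← div_eq_mul_inv, div_div, div_le_iff₀ (by positivity),
        mul_comm G, ← hAd] at hk2
      have r2 : (1 + e) * A * r * D ≤ A * (2 * r * D) := by
        have u1 : 0 ≤ A * (r * D) := by positivity
        have u2 : 1 + e ≤ 2 := by linarith
        calc (1 + e) * A * r * D = (1 + e) * (A * (r * D)) := by ring
          _ ≤ 2 * (A * (r * D)) := mul_le_mul_of_nonneg_right u2 u1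
          _ = A * (2 * r * D) := by ring
      have r3 : A * (2 * r * D) ≤ A * (e / 2) := mul_le_mul_of_nonneg_left hrD hA0.le
      linarith)
    a_U a_Uc
    (by
      have r1 : (n : ℝ) ^ (2 * (1 - 1 / m) - δ) =
          ((n : ℝ) ^ (1 - 1 / m)) ^ 2 * (n : ℝ) ^ (-δ) := by
        rw [← Real.rpow_natCast ((n : ℝ) ^ (1 - 1 / m)), ← Real.rpow_mul hn0.le,
          ← Real.rpow_add hn0]
        congr 1
        push_cast
        ring
      have r2 : A ^ 2 ≤ c ^ 2 := pow_le_pow_left₀ hA0.le hAc 2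
      have r3 : C1 * q * D ^ 2 =
          (C1 * C2 * D ^ 2 * (n : ℝ) ^ (-δ)) * ((n : ℝ) ^ (1 - 1 / m)) ^ 2 := by
        rw [hq, r1]
        ring
      rw [r3]
      calc _ ≤ (e ^ (2 * m) * G ^ 2) * ((n : ℝ) ^ (1 - 1 / m)) ^ 2 :=
            mul_le_mul_of_nonneg_right hk4 (sq_nonneg _)
        _ = e ^ (2 * m) * A ^ 2 := by rw [hAd]; ring
        _ ≤ e ^ (2 * m) * c ^ 2 := mul_le_mul_of_nonneg_left r2 (by positivity))
  -- the end
  have hTg : rt m (Nr m (Fi (Tn n g))) ≤ c * (e * x) :=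
    (rt_le hm1 hc.le (fin hBAS (z1 hg) hm1) (hyp g hg)).trans
      (mul_le_mul_of_nonneg_left a_g hc.le)
  have hTh : Tn n h = fun ξ => Tn n (sm H M) ξ + Tn n g ξ := by
    funext ξ
    simp only [Tn]
    rw [hdec ξ]
    ring
  have hlast := minkF hm1 hBAS (tz (hB0 M le_rfl)) (tz hg) hTh
  rw [← hU] at hlast
  apply le_rt hm1 (by positivity) (fin hBAS (tz hB) hm1) (fin hBAS (z1 hB) hm1)
  rw [← hx]
  have s1 : (1 + e) * ((1 + e) * ((1 + e) * (1 + e) + e) * A + e * c) * P ≤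
      (1 + e) * ((1 + e) * ((1 + e) * (1 + e) + e) * A + e * c) * ((1 + e) * x) :=
    mul_le_mul_of_nonneg_left a_PM (by positivity)
  have t1 : e ^ 2 ≤ 1 / 10 * e := by
    rw [pow_two]
    exact mul_le_mul_of_nonneg_right he1 he.le
  have t2 : e ^ 3 ≤ 1 / 100 * e := by
    have u1 : e ^ 3 = e ^ 2 * e := by ring
    have u2 := mul_le_mul_of_nonneg_right t1 he.le
    have u3 : 1 / 10 * e * e = 1 / 10 * e ^ 2 := by ring
    rw [u3] at u2
    rw [u1]
    clear * - u2 t1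
    linarith
  have t3 : e ^ 4 ≤ 1 / 1000 * e := by
    have u1 : e ^ 4 = e ^ 3 * e := by ring
    have u2 := mul_le_mul_of_nonneg_right t2 he.le
    have u3 : 1 / 100 * e * e = 1 / 100 * e ^ 2 := by ring
    rw [u3] at u2
    rw [u1]
    clear * - u2 t1
    linarith
  have t4 : e ^ 5 ≤ 1 / 10000 * e := by
    have u1 : e ^ 5 = e ^ 4 * e := by ring
    have u2 := mul_le_mul_of_nonneg_right t3 he.le
    have u3 : 1 / 1000 * e * e = 1 / 1000 * e ^ 2 := by ring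
    rw [u3] at u2
    rw [u1]
    clear * - u2 t1
    linarith
  have s2 : (1 + e) * ((1 + e) * ((1 + e) * (1 + e) + e)) * (1 + e) ≤ 1 + 8 * e := by
    have : (1 + e) * ((1 + e) * ((1 + e) * (1 + e) + e)) * (1 + e) =
        1 + 6 * e + 13 * e ^ 2 + 13 * e ^ 3 + 6 * e ^ 4 + e ^ 5 := by ring
    rw [this]
    linarith
  have s3 : (1 + e) * ((1 + e) * ((1 + e) * (1 + e) + e)) * (1 + e) * (A * x) ≤
      (1 + 8 * e) * (A * x) :=
    mul_le_mul_of_nonneg_right s2 (by positivity)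
  have s4 : (1 + e) * (e * c) * ((1 + e) * x) + c * (e * x) ≤ 3 * e * c * x := by
    have u1 : 0 ≤ e * c * x := by positivity
    have u2 : (1 + e) * (e * c) * ((1 + e) * x) + c * (e * x) =
        (2 + 2 * e + e ^ 2) * (e * c * x) := by ring
    rw [u2]
    have u3 : 2 + 2 * e + e ^ 2 ≤ 3 := by linarith
    calc (2 + 2 * e + e ^ 2) * (e * c * x) ≤ 3 * (e * c * x) :=
          mul_le_mul_of_nonneg_right u3 u1
      _ = 3 * e * c * x := by ring
  calc rt m (Nr m (Fi (Tn n h))) ≤ U + rt m (Nr m (Fi (Tn n g))) := hlast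
    _ ≤ (1 + e) * ((1 + e) * ((1 + e) * (1 + e) + e) * A + e * c) * ((1 + e) * x) +
          c * (e * x) :=
        add_le_add (hfin.trans s1) hTg
    _ = (1 + e) * ((1 + e) * ((1 + e) * (1 + e) + e)) * (1 + e) * (A * x) +
        ((1 + e) * (e * c) * ((1 + e) * x) + c * (e * x)) := by ring
    _ ≤ (1 + 8 * e) * (A * x) + 3 * e * c * x := add_le_add s3 s4
    _ = ((1 + 8 * e) * A + 3 * e * c) * x := by ring

/-- FTH, with Fourier inversion etc. as a hypothesis -/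
theorem tb (hb : S_BAS) (h1 : R_ENU) (h2 : R_SUQ) (h3 : R_CMP) (h4 : R_STR) (h5 : R_INR)
    (h6 : R_SPT) (h7 : R_FNT) (h8 : R_LPF) (h9 : R_CRS) : R_FTH := by
  intro m G ε hm hG hPit hε
  have hm1 : 1 ≤ m := by have := hm.1; linarith
  obtain ⟨e, he⟩ : ∃ e, e = min ε 1 / 40 := ⟨_, rfl⟩
  have he0 : 0 < e := by rw [he]; positivity
  have he1 : e ≤ ε / 40 := by
    rw [he]
    have := min_le_left ε 1
    linarith
  have he2 : e ≤ 1 / 40 := by
    rw [he]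
    have := min_le_right ε 1
    linarith
  obtain ⟨n₀, hn₀⟩ := step hb h1 h2 h3 h4 h5 h6 h8 h9 m G e hm hG hPit he0 (by linarith)
  refine ⟨max n₀ 1, ?_⟩
  intro n lam hn
  obtain ⟨hA, hstep⟩ := hn₀ n (le_of_max_le_left hn)
  have hn1 : 1 ≤ n := le_of_max_le_right hn
  obtain ⟨A, hAd⟩ : ∃ A, A = Ar m G n := ⟨_, rfl⟩
  rw [← hAd] at hA hstep ⊢
  obtain ⟨S, hS⟩ : ∃ S : Set ℝ, S = {c | A ≤ c ∧ ∀ h, Bd 1 lam h →
      Nr m (Fi (Tn n h)) ≤ ENNReal.ofReal (c ^ (2 * m)) * Nr m (Fi h)} := ⟨_, rfl⟩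
  have hne : S.Nonempty := by
    obtain ⟨C, hC, hF⟩ := h7 m n 1 lam hm hn1 one_pos
    refine ⟨max A (max 1 C), ?_⟩
    rw [hS]
    refine ⟨le_max_left _ _, fun h hB => (hF h hB).trans ?_⟩
    refine mul_le_mul_left (ENNReal.ofReal_le_ofReal ?_) _
    have c1 : (1 : ℝ) ≤ max A (max 1 C) := (le_max_left _ _).trans (le_max_right _ _)
    have c2 : C ≤ max A (max 1 C) := (le_max_right _ _).trans (le_max_right _ _)
    exact c2.trans (self_le_rpow c1 (by linarith))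
  have hbdd : BddBelow S := ⟨A, fun c hc => by rw [hS] at hc; exact hc.1⟩
  have hF : ∀ c ∈ S, (1 + 8 * e) * A + 3 * e * c ∈ S := by
    intro c hc
    rw [hS] at hc ⊢
    have hc0 : 0 < c := hA.trans_le hc.1
    refine ⟨?_, hstep lam c hc.1 hc.2⟩
    nlinarith [mul_pos he0 hA, mul_pos he0 hc0]
  have hN : sInf S * (1 - 3 * e) ≤ (1 + 8 * e) * A := by
    have h9 : (sInf S - (1 + 8 * e) * A) / (3 * e) ≤ sInf S := by
      apply le_csInf hne
      intro c hc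
      rw [div_le_iff₀ (by linarith)]
      have := csInf_le hbdd (hF c hc)
      linarith
    rw [div_le_iff₀ (by linarith)] at h9
    linarith
  have hlt : sInf S < (1 + ε) * A := by
    by_contra hcon
    push Not at hcon
    have h9 : (1 + ε) * A * (1 - 3 * e) ≤ sInf S * (1 - 3 * e) :=
      mul_le_mul_of_nonneg_right hcon (by linarith)
    have h10 : (1 + ε) * (1 - 3 * e) * A ≤ (1 + 8 * e) * A := by linarith
    have h11 := le_of_mul_le_mul_right h10 hA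
    nlinarith [mul_nonneg hε.le (sub_nonneg.2 he2)]
  obtain ⟨c, hc, hclt⟩ := exists_lt_of_csInf_lt hne hlt
  rw [hS] at hc
  intro h hB
  refine (hc.2 h hB).trans (mul_le_mul_left (ENNReal.ofReal_le_ofReal ?_) _)
  exact Real.rpow_le_rpow (hA.le.trans hc.1) hclt.le (by linarith)

end Pool.Agent.H84PB.FTH
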