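import Mathlib
import Pool.Agent.H78.PB.Stm
import Pool.Agent.N892.BW.KTH_B

/-!
# FTH for real exponents: preliminaries and the numerical core (helper84), after KTH_A, KTH_B, FTH_A
-/

set_option autoImplicit false

open MeasureTheory ENNReal Filter Topology Complex
open scoped ComplexConjugate ContDiff

namespace Pool.Agent.H84PB

open Pool.Agent.N892.BW Pool.Agent.H78.PB

/-- Minkowski for finite sums, real exponents -/
theorem mink_fin {p : ℝ} {M : ℕ} (hp : 1 ≤ p) {v w g : ℕ → ℝ} {a b : ℝ} (ha : 0 ≤ a) (hb : 0 ≤ b)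
    (hv0 : ∀ k, k < M → 0 ≤ v k) (hw0 : ∀ k, k < M → 0 ≤ w k) (hg0 : ∀ k, k < M → 0 ≤ g k)
    (hv : ∀ k, k < M → v k ≤ w k + g k) (hw : ∑ k ∈ Finset.range M, w k ^ p ≤ a ^ p)
    (hg : ∑ k ∈ Finset.range M, g k ^ p ≤ b ^ p) :
    ∑ k ∈ Finset.range M, v k ^ p ≤ (a + b) ^ p := by
  have hp0 : 0 < p := by linarith
  have h1 := Real.Lp_add_le_of_nonneg (Finset.range M) (f := w) (g := g) (p := p) hp
    (fun i hi => hw0 i (Finset.mem_range.1 hi)) (fun i hi => hg0 i (Finset.mem_range.1 hi))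
  have hroot : ∀ {s c : ℝ}, 0 ≤ s → 0 ≤ c → s ≤ c ^ p → s ^ (1 / p) ≤ c := by
    intro s c hs hc hsc
    calc s ^ (1 / p) ≤ (c ^ p) ^ (1 / p) :=
          Real.rpow_le_rpow hs hsc (by positivity)
      _ = c := by
          rw [one_div]
          exact Real.rpow_rpow_inv hc hp0.ne'
  have hsw : 0 ≤ ∑ k ∈ Finset.range M, w k ^ p :=
    Finset.sum_nonneg fun k hk => Real.rpow_nonneg (hw0 k (Finset.mem_range.1 hk)) _
  have hsg : 0 ≤ ∑ k ∈ Finset.range M, g k ^ p :=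
    Finset.sum_nonneg fun k hk => Real.rpow_nonneg (hg0 k (Finset.mem_range.1 hk)) _
  have hswg : 0 ≤ ∑ k ∈ Finset.range M, (w k + g k) ^ p :=
    Finset.sum_nonneg fun k hk => Real.rpow_nonneg
      (add_nonneg (hw0 k (Finset.mem_range.1 hk)) (hg0 k (Finset.mem_range.1 hk))) _
  have h2 : (∑ k ∈ Finset.range M, (w k + g k) ^ p) ^ (1 / p) ≤ a + b :=
    h1.trans (add_le_add (hroot hsw ha hw) (hroot hsg hb hg))
  have h3 : ∑ k ∈ Finset.range M, (w k + g k) ^ p ≤ (a + b) ^ p := by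
    have h4 := Real.rpow_le_rpow (Real.rpow_nonneg hswg _) h2 hp0.le
    rwa [one_div, Real.rpow_inv_rpow hswg hp0.ne'] at h4
  refine le_trans (Finset.sum_le_sum fun k hk => ?_) h3
  exact Real.rpow_le_rpow (hv0 k (Finset.mem_range.1 hk)) (hv k (Finset.mem_range.1 hk)) hp0.le

theorem self_le_rpow {x p : ℝ} (hx : 1 ≤ x) (hp : 1 ≤ p) : x ≤ x ^ p := by
  calc x = x ^ (1 : ℝ) := (Real.rpow_one x).symm
    _ ≤ x ^ p := Real.rpow_le_rpow_of_exponent_le hx hp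

theorem rpow_split {m x : ℝ} (hm : 1 ≤ m) (hx : 0 ≤ x) : x ^ (2 * m) = x ^ 2 * x ^ (2 * m - 2) := by
  rw [← Real.rpow_natCast x 2, ← Real.rpow_add_of_nonneg hx (by norm_num) (by linarith)]
  congr 1
  push_cast
  ring

/-- the numerical core -/
theorem numcore {m : ℝ} {M : ℕ} (hm : 1 ≤ m) {e P S U A c D r t B κ : ℝ} {v z y f : ℕ → ℝ}
    (he : 0 < e) (he1 : e ≤ 1) (hP : 0 ≤ P) (hS : 0 ≤ S) (hU0 : 0 ≤ U) (hA : 0 ≤ A) (hc : 0 ≤ c)
    (hr : 0 ≤ r) (hB0 : 0 ≤ B) (hte : t ≤ e) (hκ : κ ≤ e / 2)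
    (hvn : ∀ k, k < M → 0 ≤ v k) (hzn : ∀ k, k < M → 0 ≤ z k) (hfn : ∀ k, k < M → 0 ≤ f k)
    (hv : ∀ k, k < M → v k ≤ (1 + e) * A * y k + f k)
    (hy : ∀ k, k < M → y k ≤ z k + r * f k)
    (hz : ∑ k ∈ Finset.range M, z k ^ (2 * m) ≤ (1 + t) * P ^ (2 * m))
    (hf : ∑ k ∈ Finset.range M, f k ^ (2 * m) ≤ S ^ (2 * m)) (hSD : S ≤ D * P)
    (hsm : ((1 + e) * A * r + 1) * D ≤ e * A)
    (hU : U ^ (2 * m) ≤ (1 + e) * ∑ k ∈ Finset.range M, v k ^ (2 * m) + B * S ^ 2 * U ^ (2 * m - 2)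
      + κ * U ^ (2 * m))
    (hUc : U ≤ c * P) (hB : B * D ^ 2 ≤ e ^ (2 * m) * c ^ 2) :
    U ≤ (1 + e) * ((1 + e) * ((1 + e) * (1 + e) + e) * A + e * c) * P := by
  have hp1 : 1 ≤ 2 * m := by linarith
  have hp0 : 0 < 2 * m := by linarith
  have hsv : ∑ k ∈ Finset.range M, v k ^ (2 * m) ≤
      ((1 + e) * A * ((1 + e) * P) + e * A * P) ^ (2 * m) := by
    refine mink_fin hp1 (w := fun k => (1 + e) * A * z k)
      (g := fun k => ((1 + e) * A * r + 1) * f k)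
      (by positivity) (by positivity) hvn (fun k hk => mul_nonneg (by positivity) (hzn k hk))
      (fun k hk => mul_nonneg (by positivity) (hfn k hk)) ?_ ?_ ?_
    · intro k hk
      have a1 := hv k hk
      have a2 : (1 + e) * A * y k ≤ (1 + e) * A * (z k + r * f k) :=
        mul_le_mul_of_nonneg_left (hy k hk) (by positivity)
      linarith
    · have : ∑ k ∈ Finset.range M, ((1 + e) * A * z k) ^ (2 * m) =
          ∑ k ∈ Finset.range M, ((1 + e) * A) ^ (2 * m) * z k ^ (2 * m) :=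
        Finset.sum_congr rfl fun k hk =>
          Real.mul_rpow (by positivity) (hzn k (Finset.mem_range.1 hk))
      rw [this, ← Finset.mul_sum, Real.mul_rpow (x := (1 + e) * A) (by positivity) (by positivity)]
      refine mul_le_mul_of_nonneg_left (hz.trans ?_) (by positivity)
      rw [Real.mul_rpow (by positivity) hP]
      refine mul_le_mul_of_nonneg_right ?_ (by positivity)
      have : 1 + e ≤ (1 + e) ^ (2 * m) := self_le_rpow (by linarith) hp1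
      linarith
    · have : ∑ k ∈ Finset.range M, (((1 + e) * A * r + 1) * f k) ^ (2 * m) =
          ∑ k ∈ Finset.range M, ((1 + e) * A * r + 1) ^ (2 * m) * f k ^ (2 * m) :=
        Finset.sum_congr rfl fun k hk =>
          Real.mul_rpow (by positivity) (hfn k (Finset.mem_range.1 hk))
      rw [this, ← Finset.mul_sum]
      calc _ ≤ ((1 + e) * A * r + 1) ^ (2 * m) * S ^ (2 * m) :=
            mul_le_mul_of_nonneg_left hf (by positivity)
        _ = (((1 + e) * A * r + 1) * S) ^ (2 * m) := by rw [Real.mul_rpow (by positivity) hS]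
        _ ≤ (e * A * P) ^ (2 * m) := by
            refine Real.rpow_le_rpow (by positivity) ?_ hp0.le
            calc ((1 + e) * A * r + 1) * S ≤ ((1 + e) * A * r + 1) * (D * P) :=
                  mul_le_mul_of_nonneg_left hSD (by positivity)
              _ = (((1 + e) * A * r + 1) * D) * P := by ring
              _ ≤ e * A * P := mul_le_mul_of_nonneg_right hsm hP
  have h6 : B * S ^ 2 * U ^ (2 * m - 2) ≤ (e * c * P) ^ (2 * m) := by
    have b1 := rpow_split hm hP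
    have b2 := rpow_split hm hc
    have c1 : S ^ 2 ≤ (D * P) ^ 2 := pow_le_pow_left₀ hS hSD 2
    have c3 : U ^ (2 * m - 2) ≤ (c * P) ^ (2 * m - 2) := Real.rpow_le_rpow hU0 hUc (by linarith)
    calc B * S ^ 2 * U ^ (2 * m - 2) ≤ B * (D * P) ^ 2 * (c * P) ^ (2 * m - 2) :=
          mul_le_mul (mul_le_mul_of_nonneg_left c1 hB0) c3 (Real.rpow_nonneg hU0 _) (by positivity)
      _ = (B * D ^ 2) * (c ^ (2 * m - 2) * (P ^ 2 * P ^ (2 * m - 2))) := by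
          rw [Real.mul_rpow hc hP, mul_pow D]
          ring
      _ ≤ (e ^ (2 * m) * c ^ 2) * (c ^ (2 * m - 2) * (P ^ 2 * P ^ (2 * m - 2))) :=
          mul_le_mul_of_nonneg_right hB (by positivity)
      _ = (e * c * P) ^ (2 * m) := by
          rw [Real.mul_rpow (by positivity) hP, Real.mul_rpow he.le hc, b1, b2]
          ring
  have h7 : (1 + e) * ∑ k ∈ Finset.range M, v k ^ (2 * m) ≤
      ((1 + e) * ((1 + e) * A * ((1 + e) * P) + e * A * P)) ^ (2 * m) := by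
    rw [Real.mul_rpow (x := 1 + e) (by positivity) (by positivity)]
    have : 1 + e ≤ (1 + e) ^ (2 * m) := self_le_rpow (by linarith) hp1
    exact mul_le_mul this hsv
      (Finset.sum_nonneg fun k hk => Real.rpow_nonneg (hvn k (Finset.mem_range.1 hk)) _)
      (by positivity)
  have h8 := Real.add_rpow_le_rpow_add
    (a := (1 + e) * ((1 + e) * A * ((1 + e) * P) + e * A * P)) (b := e * c * P)
    (by positivity) (by positivity) hp1
  obtain ⟨X, hX⟩ : ∃ X, X = (1 + e) * ((1 + e) * A * ((1 + e) * P) + e * A * P) + e * c * P :=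
    ⟨_, rfl⟩
  have hX0 : 0 ≤ X := by rw [hX]; positivity
  rw [← hX] at h8
  have hU1 : 0 ≤ U ^ (2 * m) := Real.rpow_nonneg hU0 _
  have h9 : U ^ (2 * m) ≤ ((1 + e) * X) ^ (2 * m) := by
    have a1 : (1 - κ) * U ^ (2 * m) ≤ X ^ (2 * m) := by linarith
    have a2 : 1 ≤ (1 + e) * (1 - κ) := by nlinarith
    have a3 : 1 + e ≤ (1 + e) ^ (2 * m) := self_le_rpow (by linarith) hp1
    rw [Real.mul_rpow (by positivity) hX0]
    calc U ^ (2 * m) = 1 * U ^ (2 * m) := (one_mul _).symm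
      _ ≤ ((1 + e) * (1 - κ)) * U ^ (2 * m) := mul_le_mul_of_nonneg_right a2 hU1
      _ = (1 + e) * ((1 - κ) * U ^ (2 * m)) := by ring
      _ ≤ (1 + e) * X ^ (2 * m) := mul_le_mul_of_nonneg_left a1 (by positivity)
      _ ≤ (1 + e) ^ (2 * m) * X ^ (2 * m) :=
          mul_le_mul_of_nonneg_right a3 (Real.rpow_nonneg hX0 _)
  have h10 : U ≤ (1 + e) * X :=
    (Real.rpow_le_rpow_iff hU0 (by positivity) hp0).1 h9
  refine h10.trans (le_of_eq ?_)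
  rw [hX]
  ring

theorem sum_pow_le {m : ℝ} (hm : 1 ≤ m) (s : Finset ℕ) (g : ℕ → ℝ≥0∞) :
    ∑ k ∈ s, g k ^ m ≤ (∑ k ∈ s, g k) ^ m := by
  classical
  induction s using Finset.induction_on with
  | empty =>
    rw [Finset.sum_empty]
    exact bot_le
  | insert k s hk ih =>
    rw [Finset.sum_insert hk, Finset.sum_insert hk]
    exact (add_le_add le_rfl ih).trans (ENNReal.add_rpow_le_rpow_add _ _ hm)

/-! ### roots -/

/-- the root -/
noncomputable def rt (m : ℝ) (t : ℝ≥0∞) : ℝ := t.toReal ^ (1 / (2 * m))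

theorem rt_nonneg (m : ℝ) (t : ℝ≥0∞) : 0 ≤ rt m t := Real.rpow_nonneg toReal_nonneg _

theorem rt_pow {m : ℝ} (hm : 1 ≤ m) {t : ℝ≥0∞} (ht : t ≠ ⊤) :
    t = ENNReal.ofReal (rt m t ^ (2 * m)) := by
  unfold rt
  rw [← Real.rpow_mul toReal_nonneg]
  have h0 : m ≠ 0 := by linarith
  have : 1 / (2 * m) * (2 * m) = 1 := by
    field_simp
  rw [this, Real.rpow_one, ENNReal.ofReal_toReal ht]

theorem pw {r : ℝ} (hr : 0 ≤ r) (j k : ℝ) {s : ℝ} (hs : k * s = j) (hs0 : 0 ≤ s) :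
    (ENNReal.ofReal (r ^ k)) ^ s = ENNReal.ofReal (r ^ j) := by
  rw [ENNReal.ofReal_rpow_of_nonneg (Real.rpow_nonneg hr _) hs0]
  congr 1
  rw [← Real.rpow_mul hr, hs]

theorem pw1 {m : ℝ} (hm : 1 ≤ m) {r : ℝ} (hr : 0 ≤ r) :
    (ENNReal.ofReal (r ^ (2 * m))) ^ (1 / (2 * m)) = ENNReal.ofReal r := by
  have h0 : m ≠ 0 := by linarith
  have := pw hr 1 (2 * m) (s := 1 / (2 * m)) (by field_simp) (by positivity)
  rwa [Real.rpow_one] at this

theorem pw2 {m : ℝ} (hm : 1 ≤ m) {r : ℝ} (hr : 0 ≤ r) :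
    (ENNReal.ofReal (r ^ (2 * m))) ^ (1 / m) = ENNReal.ofReal (r ^ 2) := by
  have h0 : m ≠ 0 := by linarith
  have := pw hr 2 (2 * m) (s := 1 / m) (by field_simp) (by positivity)
  rwa [Real.rpow_ofNat] at this

theorem pw3 {m : ℝ} (hm : 1 ≤ m) {r : ℝ} (hr : 0 ≤ r) :
    (ENNReal.ofReal (r ^ (2 * m))) ^ (1 - 1 / m) = ENNReal.ofReal (r ^ (2 * m - 2)) := by
  have h0 : m ≠ 0 := by linarith
  refine pw hr (2 * m - 2) (2 * m) ?_ ?_
  · field_simp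
  · rw [sub_nonneg, div_le_one (by linarith)]
    exact hm

theorem rt_zero {m : ℝ} (hm : 1 ≤ m) : rt m 0 = 0 := by
  unfold rt
  rw [toReal_zero, Real.zero_rpow]
  positivity

theorem Nr_zero {m : ℝ} (hm : 1 ≤ m) : Nr m (fun _ => 0) = 0 := by
  unfold Nr
  have : (0 : ℝ≥0∞) ^ (2 * m) = 0 := ENNReal.zero_rpow_of_pos (by linarith)
  simp [this]

theorem fin {b : ℝ} {h : ℂ → ℂ} (hBAS : S_BAS) (hB : Bd 0 b h) {m : ℝ} (hm : 1 ≤ m) :
    Nr m (Fi h) ≠ ⊤ := by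
  obtain ⟨-, -, ⟨h1, h2, M, hM⟩, -, -⟩ := hBAS b h hB
  unfold Nr
  have hle : ∀ x, ‖Fi h x‖ₑ ^ (2 * m) ≤ ENNReal.ofReal M ^ (2 * m - 1) * ‖Fi h x‖ₑ := by
    intro x
    have e : 2 * m = (2 * m - 1) + 1 := by ring
    conv_lhs => rw [e, ENNReal.rpow_add_of_nonneg _ _ (by linarith) (by norm_num), ENNReal.rpow_one]
    refine mul_le_mul_left (ENNReal.rpow_le_rpow ?_ (by linarith)) _
    rw [← ofReal_norm]
    exact ENNReal.ofReal_le_ofReal (hM x)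
  refine ne_top_of_le_ne_top ?_ (lintegral_mono hle)
  have ht : ENNReal.ofReal M ^ (2 * m - 1) ≠ ⊤ :=
    ENNReal.rpow_ne_top_of_nonneg (by linarith) ENNReal.ofReal_ne_top
  rw [lintegral_const_mul' _ _ ht]
  exact ENNReal.mul_ne_top ht h2.2.ne

theorem mink {m : ℝ} (hm : 1 ≤ m) {f g : ℂ → ℂ} (hf : Measurable f) (hg : Measurable g)
    (hf1 : Nr m f ≠ ⊤) (hg1 : Nr m g ≠ ⊤) (hfg : Nr m (fun x => f x + g x) ≠ ⊤) :
    rt m (Nr m (fun x => f x + g x)) ≤ rt m (Nr m f) + rt m (Nr m g) := by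
  have hp1 : (1 : ℝ) ≤ 2 * m := by linarith
  have h1 := ENNReal.lintegral_Lp_add_le (μ := volume) hf.enorm.aemeasurable
    hg.enorm.aemeasurable hp1
  have h2 : (∫⁻ x, ‖f x + g x‖ₑ ^ (2 * m)) ^ (1 / (2 * m)) ≤
      (∫⁻ x, ((fun x => ‖f x‖ₑ) + fun x => ‖g x‖ₑ) x ^ (2 * m)) ^ (1 / (2 * m)) := by
    refine ENNReal.rpow_le_rpow (lintegral_mono fun x => ?_) (by positivity)
    exact ENNReal.rpow_le_rpow (enorm_add_le _ _) (by positivity)
  have h3 := h2.trans h1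
  change (Nr m (fun x => f x + g x)) ^ (1 / (2 * m)) ≤
    (Nr m f) ^ (1 / (2 * m)) + (Nr m g) ^ (1 / (2 * m)) at h3
  rw [rt_pow hm hf1, rt_pow hm hg1, rt_pow hm hfg] at h3
  rw [pw1 hm (rt_nonneg _ _), pw1 hm (rt_nonneg _ _), pw1 hm (rt_nonneg _ _),
    ← ENNReal.ofReal_add (rt_nonneg _ _) (rt_nonneg _ _)] at h3
  exact (ENNReal.ofReal_le_ofReal_iff (add_nonneg (rt_nonneg _ _) (rt_nonneg _ _))).1 h3

/-- from an inequality of integrals to one of roots -/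
theorem rt_le {m : ℝ} (hm : 1 ≤ m) {s t : ℝ≥0∞} {c : ℝ} (hc : 0 ≤ c) (ht : t ≠ ⊤)
    (h : s ≤ ENNReal.ofReal (c ^ (2 * m)) * t) : rt m s ≤ c * rt m t := by
  have hs : s ≠ ⊤ := ne_top_of_le_ne_top (ENNReal.mul_ne_top ENNReal.ofReal_ne_top ht) h
  rw [rt_pow hm hs, rt_pow hm ht, ← ENNReal.ofReal_mul (by positivity),
    ← Real.mul_rpow hc (rt_nonneg _ _),
    ENNReal.ofReal_le_ofReal_iff (by have := rt_nonneg m t; positivity)] at h
  exact (Real.rpow_le_rpow_iff (rt_nonneg _ _) (mul_nonneg hc (rt_nonneg _ _))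
    (by linarith)).1 h

theorem le_rt {m : ℝ} (hm : 1 ≤ m) {s t : ℝ≥0∞} {c : ℝ} (hc : 0 ≤ c) (hs : s ≠ ⊤) (ht : t ≠ ⊤)
    (h : rt m s ≤ c * rt m t) : s ≤ ENNReal.ofReal (c ^ (2 * m)) * t := by
  rw [rt_pow hm hs, rt_pow hm ht, ← ENNReal.ofReal_mul (by positivity),
    ← Real.mul_rpow hc (rt_nonneg _ _)]
  exact ENNReal.ofReal_le_ofReal (Real.rpow_le_rpow (rt_nonneg _ _) h (by linarith))

/-! ### small facts -/

theorem bd_Tn' {a b a' b' : ℝ} {h : ℂ → ℂ} (n : ℕ) (ha : 0 < a) (hB : Bd a b h)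
    (hB' : Bd a' b' h) : Bd a' b' (Tn n h) := by
  refine ⟨(KTH.bd_Tn n ha hB).1, fun ξ hξ => hB'.2 ξ fun h0 => hξ ?_⟩
  simp [Tn, h0]

theorem bd_neg {a b : ℝ} {h : ℂ → ℂ} (hB : Bd a b h) : Bd a b (fun ξ => -h ξ) :=
  ⟨hB.1.neg, fun ξ hξ => hB.2 ξ fun h0 => hξ (by simp [h0])⟩

theorem Nr_neg {m : ℝ} {h : ℂ → ℂ} : Nr m (Fi (fun ξ => -h ξ)) = Nr m (Fi h) := by
  have : Fi (fun ξ => -h ξ) = fun x => -Fi h x := by
    funext x
    unfold Fi
    rw [← integral_neg]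
    congr 1
    funext ξ
    ring
  rw [this]
  unfold Nr
  simp only [enorm_neg]

theorem meas {b : ℝ} {h : ℂ → ℂ} (hBAS : S_BAS) (hB : Bd 0 b h) : Measurable (Fi h) :=
  (hBAS b h hB).2.2.1.1

/-- Minkowski for `Fi` -/
theorem minkF {m : ℝ} (hm : 1 ≤ m) (hBAS : S_BAS) {b : ℝ} {h₁ h₂ h₃ : ℂ → ℂ} (hB₁ : Bd 0 b h₁)
    (hB₂ : Bd 0 b h₂) (h : h₃ = fun ξ => h₁ ξ + h₂ ξ) :
    rt m (Nr m (Fi h₃)) ≤ rt m (Nr m (Fi h₁)) + rt m (Nr m (Fi h₂)) := by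
  have h4 : Fi h₃ = fun x => Fi h₁ x + Fi h₂ x := by rw [h, KTH.Fi_add hB₁ hB₂]
  have h5 : Nr m (fun x => Fi h₁ x + Fi h₂ x) ≠ ⊤ := by
    rw [← KTH.Fi_add hB₁ hB₂]
    exact fin hBAS (KTH.bd_add hB₁ hB₂) hm
  rw [h4]
  exact mink hm (meas hBAS hB₁) (meas hBAS hB₂) (fin hBAS hB₁ hm) (fin hBAS hB₂ hm) h5

theorem Tn_zero (n : ℕ) : Tn n (fun _ => 0) = fun _ => 0 := by
  funext ξ
  simp [Tn]

theorem sm_zero (H : ℕ → ℂ → ℂ) : sm H 0 = fun _ => 0 := by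
  funext ξ
  simp [sm]

theorem sm_succ (H : ℕ → ℂ → ℂ) (k : ℕ) : sm H (k + 1) = fun ξ => sm H k ξ + H k ξ := by
  funext ξ
  simp [sm, Finset.sum_range_succ]

theorem Tn_add (n : ℕ) (h₁ h₂ : ℂ → ℂ) :
    (fun ξ => Tn n h₁ ξ + Tn n h₂ ξ) = Tn n (fun ξ => h₁ ξ + h₂ ξ) := by
  funext ξ
  simp only [Tn]
  ring

theorem sm_Tn (n : ℕ) (H : ℕ → ℂ → ℂ) (k : ℕ) : sm (fun j => Tn n (H j)) k = Tn n (sm H k) := by
  funext ξ
  simp only [sm, Tn, Finset.mul_sum]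

end Pool.Agent.H84PB
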